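import Pool.Agent.Run7.h30.Mot.Pub

/-!
# Orlov's conjecture for derived equivalences along fibrations with fibres of dimension at most three

Let `X`, `Y` be smooth projective complex varieties of dimension `n` with `D(X) ≃ D(Y)`, `v` and `w`
the Mukai vectors of the kernels of an equivalence and of its inverse (`IsDerivedPair`), and let `L`,
`L'` be the pull-backs of ample classes by morphisms `f : X → B`, `g : Y → B` onto a projective variety
`B` of dimension `ν`, such that the equivalence commutes with `L` and `L'`: any equivalence which is
linear over `B`, or any equivalence if `K_X` or `-K_X` is semiample, `L = ± K_X`, `L' = ± K_Y` and `B`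
is the Iitaka model. The correspondences and their action on the cohomology with its Hodge structure
are described by their formal properties (`CycTheory`, of the starting library), and `PullbackAmple`
collects the consequences of the theorems of Deligne, Lefschetz, Hodge and Riemann for the
intersections of general members of `|m L|` (`AlongBase`). Suppose that `X` satisfies the standard
conjecture of Lefschetz type.

1. If the kernels of `L ^ j` on `H^m(X)` and of `L' ^ j` on `H^m(Y)` are isomorphic by algebraic cycles
   for all `j + m ≤ n - 2`, then the homological motives of `X` and `Y` are isomorphic; if moreover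
   homologically trivial self-correspondences of `X` or of `Y` are nilpotent, for example if `X` or
   `Y` is Kimura-finite, then the Chow motives `h(X)` and `h(Y)` are isomorphic.
2. In particular this holds if `L ^ k` is injective on the classes of degree `n - 3 - k`, and if the
   kernels of `L ^ (k + 1)` on the classes of degree `n - 3 - k` are isomorphic by algebraic cycles.
3. Without these conditions: the images of `L ^ j`, in other words the images of the restriction
   maps to the intersections of `j` general members of `|m L|`, are isomorphic by algebraic cycles
   in all degrees if the intersections have dimension at most three, and in the degrees two and four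
   if they have dimension four.

The conditions in 2 are satisfied if all fibres of `f` and `g` have dimension at most three. Indeed the
defect of semismallness over a proper closed subset of `B` is then at most `2`, and over `B` at
most `3`, so that `L ^ k` is injective in degree `n - 3 - k` (de Cataldo and Migliorini). The kernel
of `L ^ (k + 1)` is zero if the general fibres have dimension less than three, and otherwise it is the
primitive part of the intersection cohomology of `B`, embedded by `f^*` and `g^*`, which is the same
for `X` and `Y`. Hence Orlov's conjecture, in the form described in 1, holds for the equivalences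
which are linear over a base if all fibres have dimension at most three (elliptic fibrations,
fibrations in K3 or abelian surfaces, in Calabi–Yau threefolds, ...), and for all equivalences if `± K`
is semiample and the fibres of the Iitaka fibration have dimension at most three. For `B` a point this
is the theorem for threefolds of the starting library. Without conjectures, the theorem can be
applied to motivated cycles in the place of algebraic cycles, for which the standard conjecture is
known (André).

In the starting library, `MP_5c0b30_ag.LowDimension` assumes that `h^j(X)` and `h^j(Y)` are isomorphic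
for `0 < j ≤ n - 3`, `MP_5c0b30_ag.OneDimensionalFibres` treats fibres of dimension one, and
`MP_5c0b30_ag.LefschetzCanonicalClasses` classes which satisfy hard Lefschetz, so that `f` is
semismall.

The proof. The quotient of `H(X)` by the annihilator of `L ^ j` has the formal properties of the
cohomology of a variety of dimension `n - j`, and the pairs `(X, L)` form the objects of a theory of
correspondences with these cohomology groups, in which the transpose of a correspondence is
constructed with an algebraic quasi-inverse of `L ^ j`. The standard conjecture for `X` implies the
standard conjecture for the quotient, and `v` induces a Mukai isometry of the quotients. This gives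
relations between the motives `L ^ j h^m(X)` and `L' ^ j h^m(Y)`, with `m` in a class modulo four, for
all `j`, which are solved by induction on `m`, with `j = n - 2 - m`, and with cancellation in the
semisimple category of homological motives.
-/

open CategoryTheory

set_option autoImplicit false

universe u v

namespace Pool.Agent.Results.MP_5c0b30_ag.FibresOfDimensionThree

open Pool.Agent.N174.OC Run7.h30

/-- **Theorem.** -/
theorem result {𝒪 : Type u} [Category.{v} 𝒪] [Preadditive 𝒪] [Linear ℚ 𝒪] {n ν : ℕ}
    (T : CycTheory 𝒪 n) (X Y : 𝒪) (hB : T.ConjB X) (v : X ⟶ Y) (w : Y ⟶ X)
    (h : T.IsDerivedPair v w) (L : (T.K X).R) (L' : (T.K Y).R) (hL : AlongBase T v L L' ν) :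
    ((∀ j m : ℕ, j + m + 2 ≤ n → CycKerIso T X Y L L' j m) → MotIso T X Y) ∧
    (LowInj (T.K X) L → LowInj (T.K Y) L' →
      (∀ k m : ℕ, k + m + 3 = n → CycKerIso T X Y L L' (k + 1) m) → MotIso T X Y) ∧
    ∀ j : ℕ, j ≤ ν → (n ≤ j + 3 → ∀ m, CycImIso T X Y L L' j m) ∧
      (n = j + 4 → CycImIso T X Y L L' j 2 ∧ CycImIso T X Y L L' j 4) := by
  obtain ⟨hX, hY, hl, hl', ⟨l, hl0, hl1⟩, ⟨l', hl0', hl1'⟩, hi⟩ := hL
  have h' := pair_lin T h
  have hcrit : (∀ j m : ℕ, j + m + 2 ≤ n → CycKerIso T X Y L L' j m) → MotIso T X Y := fun hk =>
    motive_lin T hB h (Mot.criterion (T := T.lin) h' hB hX hY hl0 hl1 hl0' hl1' hi hl hl'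
      fun j m hjm => (kerIso_lin T).1 (hk j m hjm))
  have him := fun (j : ℕ) (hj : j ≤ ν) =>
    Mot.images (T := T.lin) h' hB hX hY hl0 hl1 hl0' hl1' hi hj
  refine ⟨hcrit, fun h1 h2 h3 => hcrit fun j m hjm => ?_, fun j hj =>
    ⟨fun hn m => imIso_lin T ((him j hj).1 hn m), fun hn =>
      ⟨imIso_lin T ((him j hj).2 hn).1, imIso_lin T ((him j hj).2 hn).2⟩⟩⟩
  by_cases hj' : j + m + 3 ≤ n
  · exact (kerIso_lin T).2 (Mot.kerIso_low (T := T.lin) h1 h2 hj')
  · rcases Nat.eq_zero_or_pos j with h0 | h0
    · subst h0
      exact (kerIso_lin T).2 (Mot.kerIso_zero (T := T.lin) m)
    · have h5 := h3 (j - 1) m (by omega)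
      have e : j - 1 + 1 = j := by omega
      rwa [e] at h5

end Pool.Agent.Results.MP_5c0b30_ag.FibresOfDimensionThree
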