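import Pool.Agent.Run7.h762.FM.K3

/-!
# Orlov's conjecture for fine moduli spaces on K3 surfaces of Picard number at least four

Let `S` be a projective complex K3 surface with Picard number at least four, `v` a class in its algebraic
Mukai lattice `H⁰ ⊕ NS(S) ⊕ H⁴` with `v.v = 2 n - 2 ≥ 2`, and let the products of `v` with all classes of this
lattice have greatest common divisor one, so that the moduli spaces `M` of stable sheaves (or of stable
objects of the derived category, for a generic stability condition) with Mukai vector `v` are fine.

1. There is an isotropic class `w` in the Mukai lattice with `w.v = 1`. (Unconditional, a theorem on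
   lattices.)
2. Hence `M` is birational to the Hilbert scheme `S'^[n]` of a K3 surface `S'` which is derived equivalent to
   `S`, and the Chow motives of `M` and `S^[n]` with rational coefficients are isomorphic.
3. If `S` and `S'` are derived equivalent K3 surfaces with Picard number at least four, all fine moduli spaces
   of dimension `2 n` on `S` and on `S'` have isomorphic Chow motives. (They are derived equivalent, so
   this is Orlov's conjecture for these varieties.)

Statement 1 is wrong for small Picard numbers, and there are fine moduli spaces on K3 surfaces of Picard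
number one which are not birational to Hilbert schemes of points. In general it is known that the
motive of `M` is a direct summand of a sum of twisted motives of powers of `S` (Bülles). No finite
dimensionality is used here.

Known facts which are used for 2. and 3. are collected in the structure `K3Data.Known`: they are theorems
of Mukai, Orlov, Bayer and Macrì, Markman and Verbitsky; of Rieß; and of Huybrechts.

Idea of the proof of 1. The lattice contains the hyperbolic plane `⟨e, f⟩`, `e = (0, 0, 1)`,
`f = (-1, 0, 0)`. As its rank is at least six, there is an isotropic vector `u` orthogonal to `v` (Meyer).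
It is sufficient to find `y` with `y.v = 1` such that `2 (y.u) ≠ 0` divides `y.y`; then
`w = y - (y.y / 2 (y.u)) u`. At a given prime number one takes the images of `e` under Eichler
transformations; by the Chinese remainder theorem and the theorem of Dirichlet on primes in
progressions one finds `y` such that `y.u` has only one further prime divisor `q`, and the condition
at `q` can be satisfied since a nondegenerate binary form represents all residues modulo `q`.
-/

set_option autoImplicit false

namespace Pool.Agent.Results.MP_5c0b30_ag.FineModuliOnK3

open Pool.Agent.Run7.h762.FM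

/-- **Fine moduli spaces on K3 surfaces of Picard number at least four.** -/
theorem result :
    -- 1. the theorem on lattices
    (∀ (N : Type) [AddCommGroup N] [Module.Free ℤ N] [Module.Finite ℤ N] (P : NSLattice N),
      4 ≤ Module.finrank ℤ N → ∀ v : ℤ × N × ℤ, P.IsFine v →
        ∃ w, P.mukai w w = 0 ∧ P.mukai w v = 1) ∧
    ∀ T : K3Data, T.Known →
      -- 2. fine moduli spaces and Hilbert schemes
      (∀ S : T.Surf, 4 ≤ T.rho S → ∀ v : ℤ × T.NS S × ℤ, (T.ns S).IsFine v → 2 ≤ T.sq S v →
        ∀ M : T.Var, T.IsModuli S v M → ∃ (S' : T.Surf) (n : ℕ), T.sq S v = 2 * n - 2 ∧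
          T.Derived (T.surf S) (T.surf S') ∧ T.Birational M (T.hilb S' n) ∧
          T.Motive M (T.hilb S n)) ∧
      -- 3. Orlov's conjecture for fine moduli spaces
      (∀ S S' : T.Surf, 4 ≤ T.rho S → 4 ≤ T.rho S' → T.Derived (T.surf S) (T.surf S') →
        ∀ (v : ℤ × T.NS S × ℤ) (v' : ℤ × T.NS S' × ℤ), (T.ns S).IsFine v →
        (T.ns S').IsFine v' → 2 ≤ T.sq S v → T.sq S v = T.sq S' v' →
        ∀ M M' : T.Var, T.IsModuli S v M → T.IsModuli S' v' M' → T.Motive M M') :=
  ⟨fun _ _ _ _ P h4 _ hv => P.fine h4 hv, fun _ hT =>
    ⟨fun S h4 v hv h2 M hM => K3Data.main hT S h4 v hv M hM h2,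
      fun S S' h4 h4' hSS v v' hv hv' h2 hsq M M' hM hM' =>
        K3Data.orlov hT S S' h4 h4' hSS v v' hv hv' M M' hM hM' h2 hsq⟩⟩

end Pool.Agent.Results.MP_5c0b30_ag.FineModuliOnK3
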