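import Pool.Agent.Run7.h30.Mot.FivePub

/-!
# Orlov's conjecture for fivefolds with semiample canonical or anti-canonical bundle

Let `X`, `Y` be smooth projective complex varieties of dimension five with `D(X) ≃ D(Y)`, where the
equivalence is linear over a projective variety `B₀` (`B₀` a point: any equivalence), and suppose that
`ω_X` or `ω_X⁻¹` is semiample relative to `B₀`. Let `L` be the sum of a multiple of the pull-back of an
ample class of `B₀` and of a multiple of `± K_X` which is semiample on `X`, and `L'` the corresponding
class of `Y`; they are the pull-backs of ample classes from a variety `B` of dimension `ν` (in the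
absolute case, `ν` is the Iitaka dimension of `± K_X`). The equivalence commutes with `L` and `L'`
(`AlongBase`), and there are corresponding divisors with equivalent derived categories
(`HaveEquivalentDivisors`, see `MP_b4fe5e_ag.SemiampleFivefolds`).

Suppose that `X` satisfies the standard conjecture of Lefschetz type, and either that `ν ≥ 3`, or
that `L ^ 2` and `L` are injective on the holomorphic one-forms and two-forms of `X` and `Y`.
Then the homological motives of `X` and `Y` are isomorphic; if moreover homologically trivial
self-correspondences of `X` or of `Y` are nilpotent, for example if `X` or `Y` is Kimura-finite, then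
the Chow motives `h(X)` and `h(Y)` are isomorphic.

The fibres of `X → B` and `Y → B` are arbitrary: there may be divisors contracted to points, which is
what is not allowed in `MP_5c0b30_ag.FibresOfDimensionThree`. For `ν = 0` this is the case of fivefolds
with torsion canonical class and `h^{1,0} = h^{2,0} = 0`, for example Calabi–Yau fivefolds in the strict
sense. The correspondences may be algebraic cycles, motivated cycles or Hodge classes; in the
last two cases the standard conjecture holds and the theorem is unconditional; for Hodge classes
it says that the rational Hodge structures `H^m(X)` and `H^m(Y)` are isomorphic for all `m`.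

The proof. By `MP_5c0b30_ag.FibresOfDimensionThree` it suffices to compare the kernels of `L ^ j` on
`H^m(X)` and of `L' ^ j` on `H^m(Y)` for `j + m ≤ 3`, and the only non-trivial case is `j = 1`, `m = 2`. The
kernel is a Hodge structure of type `(1, 1)`, hence spanned by algebraic classes. The rank of
`L` on `H^{1,1}` is a derived invariant, by the Mukai isometry of the quotients by the annihilators of
`L` and `L'`, and `h^{1,1}` is a derived invariant by `MP_b4fe5e_ag.SemiampleFivefolds`. So the kernels have
the same dimension, and an idempotent correspondence whose image is spanned by algebraic classes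
is determined up to isomorphism by its rank, in the semisimple algebra of correspondences.
-/

open CategoryTheory

set_option autoImplicit false

universe u v

namespace Pool.Agent.Results.MP_5c0b30_ag.SemiampleFivefolds

open Pool.Agent.N174.OC Run7.h30

/-- **Theorem.** -/
theorem result {𝒪 : Type u} [Category.{v} 𝒪] [Preadditive 𝒪] [Linear ℚ 𝒪]
    (T : CycTheory 𝒪 5) (X Y : 𝒪) (hB : T.ConjB X) (v : X ⟶ Y) (w : Y ⟶ X)
    (h : T.IsDerivedPair v w) (L : (T.K X).R) (L' : (T.K Y).R) (ν : ℕ)
    (hL : AlongBase T v L L' ν) (hX : LefschetzOneOne T X) (hY : LefschetzOneOne T Y)
    (N : Numbers (T.K X)) (N' : Numbers (T.K Y)) (hD : HaveEquivalentDivisors N N')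
    (hν : 3 ≤ ν ∨ (FormsInject (T.K X) L ∧ FormsInject (T.K Y) L')) : MotIso T X Y := by
  rcases hν with hν | hν
  · exact five_pub T hB h hL hX hY N N' hD (formsInject_of_dim hL.left hν)
      (formsInject_of_dim hL.right hν)
  · exact five_pub T hB h hL hX hY N N' hD hν.1 hν.2

end Pool.Agent.Results.MP_5c0b30_ag.SemiampleFivefolds
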