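import Pool.Agent.Run7.h30.Mot.FormsPub

/-!
# Orlov's conjecture: the transcendental parts of the motives

Let `X`, `Y` be smooth projective complex varieties of dimension `n` with `D(X) ≃ D(Y)`, `v` and `w`
the Mukai vectors of the kernels of an equivalence and of its inverse (`IsDerivedPair`). The
correspondences and their action on the cohomology with its Hodge structure are described by their
formal properties (`CycTheory`, of the starting library). Suppose that `X` satisfies the standard
conjecture of Lefschetz type.

1. For `q = n`, `n - 1` and `n - 2` there are correspondences of degree zero which act on the holomorphic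
   `q`-forms of `X` and `Y` as inverse isomorphisms.
2. Let `f : X → B` and `g : Y → B` be morphisms onto a variety of dimension `ν` and suppose that the
   equivalence commutes with the pull-backs `L` and `L'` of an ample class (`AlongBase`): for
   example, it is linear over `B`, or `± K_X` is semiample and `B` is its Iitaka model. If `ν ≥ n - 2`, in
   other words if the general fibres have dimension at most two, then there are correspondences
   of degree zero `Z` and `Z'` which act on the holomorphic forms of **all** degrees of `X` and `Y` as
   inverse isomorphisms.
3. In general this holds if the holomorphic `q`-forms killed by `L ^ (n - 2 - q)` and `L' ^ (n - 2 - q)` are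
   isomorphic by algebraic cycles, for all `q ≤ n - 2`. For `ν = n - 3` these are the forms which come
   from `B`, which are the same for `X` and `Y`; so the conclusion holds if the general fibres have
   dimension at most three.

There are no conditions on the special fibres. It follows that `Z` and `Z'` are inverse to each other
on the smallest rational sub-Hodge structures of `H^q(X)` and `H^q(Y)` which contain the holomorphic
`q`-forms, the transcendental parts, in other words on the motives modulo motives of coniveau at
least one. (Part 1 says this for `h^n`, `h^(n-1)` and `h^(n-2)`; in `MP_5c0b30_ag.LowDimension`, of the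
starting library, isomorphisms of the whole motives `h^n`, `h^(n-1)` and `h^(n-2)` are proved if some
motives of lower degree are isomorphic.) As before the correspondences may be algebraic cycles,
or, without assuming the standard conjecture, motivated cycles or Hodge classes.

The proof. The operators on `H(X)` and on `H(Y)` given by algebraic correspondences of all degrees form
the same semisimple algebra `E` over the rational numbers. The elements of `E` which kill all
classes of type `(q + k, k)` form a two-sided ideal, generated by a central idempotent `1 - ε`. The
relations between the multiplicities of the motives `h^j(X)` and `h^j(Y)` hold after multiplication by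
`ε`, and `ε h^j = 0` for `j < q`. For `q ≥ n - 2` this leaves only `ε h^q`. For smaller `q` the same is done
for the quotients of `H(X)` and `H(Y)` by the annihilators of `L ^ (n - 2 - q)` and `L' ^ (n - 2 - q)`, on which
the equivalence acts as a Mukai isometry and which behave as the cohomology of varieties of
dimension `q + 2`; and `L ^ (n - 2 - q)` is injective on holomorphic `q`-forms if `ν ≥ n - 2`.
-/

open CategoryTheory

set_option autoImplicit false

universe u v

namespace Pool.Agent.Results.MP_5c0b30_ag.TranscendentalParts

open Pool.Agent.N174.OC Pool.Agent.W539.DI Run7.h30

theorem kerForms_zero {n ν : ℕ} {K : KRing n} {L : K.R} (P : PullbackAmple K L ν) (hν : n ≤ ν + 2)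
    {q : ℕ} (hq : q + 2 ≤ n) : ∀ x ∈ K.H ((q : ℤ), 0), L ^ (n - 2 - q) * x = 0 → x = 0 := by
  intro x hx h0
  refine P.hol q (by omega) x hx ?_
  have e : ν - q = (ν - q - (n - 2 - q)) + (n - 2 - q) := by omega
  rw [e, pow_add, mul_assoc, h0, mul_zero]

/-- **Theorem.** -/
theorem result {𝒪 : Type u} [Category.{v} 𝒪] [Preadditive 𝒪] [Linear ℚ 𝒪] {n : ℕ}
    (T : CycTheory 𝒪 n) (X Y : 𝒪) (hB : T.ConjB X) (v : X ⟶ Y) (w : Y ⟶ X)
    (h : T.IsDerivedPair v w) :
    (∀ q ≤ n, n ≤ q + 2 → IsoOn T (formSet (T.K X) q) (formSet (T.K Y) q)) ∧
    ∀ (L : (T.K X).R) (L' : (T.K Y).R) (ν : ℕ), AlongBase T v L L' ν →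
      (n ≤ ν + 2 → AllForms T X Y) ∧
      ((∀ q, q + 2 ≤ n → IsoOn T (kerFormSet (T.K X) L (n - 2 - q) q)
        (kerFormSet (T.K Y) L' (n - 2 - q) q)) → AllForms T X Y) := by
  refine ⟨fun q hq hq' => form_lin T (Mot.form_top (pair_lin T h) hB hq hq'),
    fun L L' ν hL => ⟨fun hν => ?_, fun hk => ?_⟩⟩
  · exact all_forms_of_ker T hB h hL fun q hq =>
      Mot.kerForm_of_inj (T := T.lin) (kerForms_zero hL.left hν hq) (kerForms_zero hL.right hν hq)
  · exact all_forms_of_ker T hB h hL fun q hq => kerForm_lin T (hk q hq)

end Pool.Agent.Results.MP_5c0b30_ag.TranscendentalParts
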